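import Pool.Agent.U865.EF.Sys

/-!
# MP_898f40_nt: the expected local Euler factor
-/

set_option autoImplicit false

open Module

universe u v w

namespace Pool.Agent.Results.MP_898f40_nt.ExpectedFactor

open Pool.Agent.H914 Pool.Agent.Y143 Pool.Agent.Y163.MW Pool.Agent.Y163.MX Pool.Agent.U865.WM
open Pool.Agent.U865.EF

section

variable {K : Type u} [Field K] {Ω : Nat.Primes → Type w} [∀ ℓ, Field (Ω ℓ)]
  [∀ ℓ, CharZero (Ω ℓ)] {p : Nat.Primes}

/-- The `ℓ`-adic local factor `P_ℓ = det (1 - F T)` on the invariants of inertia in `H^m(X)` is the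
polynomial `L` with integral coefficients (the same one for all `ℓ`). -/
def Right (T : FTheory.{u, v, w} K Ω p) (X : SmVar.{u} K) (m : ℕ) (L : Polynomial ℤ)
    (ℓ : Nat.Primes) : Prop :=
  factor (T.H ℓ X) m = L.map (Int.castRingHom (Ω ℓ))

/-- The dimension of the space of invariants of inertia in the `ℓ`-adic `H^m(X)`. -/
noncomputable def inv (T : FTheory.{u, v, w} K Ω p) (X : SmVar.{u} K) (m : ℕ) (ℓ : Nat.Primes) : ℕ :=
  finrank (Ω ℓ) (LinearMap.ker (T.H ℓ X).N ⊓ (T.H ℓ X).gr m : Submodule (Ω ℓ) (T.H ℓ X).V)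

/-- For all `ℓ` the local factor `P_ℓ` is `L D`, for a polynomial `D` of degree `deg G - rank N_ℓ`
(where `G` is the greatest common divisor of `C(T)` and `q ^ (deg C) C(T / q)`); and `P_ℓ = L` if
and only if `rank N_ℓ = deg G`. -/
def Divides (T : FTheory.{u, v, w} K Ω p) (q : ℕ) (X : SmVar.{u} K) (m : ℕ) (C : Polynomial ℚ)
    (L : Polynomial ℤ) : Prop :=
  ∀ ℓ, (∃ D : Polynomial (Ω ℓ), factor (T.H ℓ X) m = L.map (Int.castRingHom (Ω ℓ)) * D ∧
      D.natDegree + rk (T.H ℓ X) m 1 = (common C q).natDegree) ∧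
    (Right T X m L ℓ ↔ rk (T.H ℓ X) m 1 = (common C q).natDegree)

/-- `P_ℓ = L` if the monodromy-weight conjecture holds for the `ℓ`-adic `H^m(X)`, or if
`rank N_ℓ + rank N_ℓ ^ 3 + rank N_ℓ ^ 5 + ...` attains the bound `∑ (2 λ - m)⁺`, the sum over the
slopes `λ` of the `p`-adic `H^m(X)`. If all these slopes are at most `m / 2`, then `P_ℓ = L` for all
`ℓ`, and it is the reverse polynomial of `C`. -/
def Sufficient (T : FTheory.{u, v, w} K Ω p) (q : ℕ) (X : SmVar.{u} K) (m : ℕ) (C : Polynomial ℚ)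
    (L : Polynomial ℤ) : Prop :=
  (∀ ℓ, (T.H ℓ X).MWPure q m → Right T X m L ℓ) ∧
  (∀ ℓ, ∀ M : ℕ, slopeExcess (T.H p X) T.val m 0 ≤ (rankSumFrom (T.H ℓ X) m 0 M : ℝ) →
    Right T X m L ℓ) ∧
  ((∀ α, mult (T.H p X) m α ≠ 0 → 2 * T.val α ≤ m) → L.map (Int.castRingHom ℚ) = C.reverse ∧
    ∀ ℓ, Right T X m L ℓ)

/-- If `P_ℓ₀ = L` for one prime number `ℓ₀` then the invariants of inertia have, for all `ℓ`, at least
the dimension which they have for `ℓ₀`, and `P_ℓ = P_ℓ₀ = L` if and only if the dimensions are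
equal. -/
def Comparison (T : FTheory.{u, v, w} K Ω p) (X : SmVar.{u} K) (m : ℕ) (L : Polynomial ℤ) : Prop :=
  ∀ ℓ₀, Right T X m L ℓ₀ → ∀ ℓ, inv T X m ℓ₀ ≤ inv T X m ℓ ∧
    (Right T X m L ℓ ↔ inv T X m ℓ = inv T X m ℓ₀)

/-- If `G` is a power of a linear polynomial `T - b`, then `b` is an integer (for `G ≠ 1`) and
`P_ℓ = L (1 - b T) ^ (deg G - rank N_ℓ)` for all `ℓ`. In particular all the `P_ℓ` have integral
coefficients; and they are equal to `L` for all `ℓ` if `G = 1`. -/
def OneEigenvalue (T : FTheory.{u, v, w} K Ω p) (q : ℕ) (X : SmVar.{u} K) (m : ℕ)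
    (C : Polynomial ℚ) (L : Polynomial ℤ) : Prop :=
  ∀ (b : ℚ) (g : ℕ), common C q = (Polynomial.X - Polynomial.C b) ^ g →
    ∃ z : ℤ, (0 < g → (z : ℚ) = b) ∧ ∀ ℓ, factor (T.H ℓ X) m =
      (L * (1 - Polynomial.C z * Polynomial.X) ^
        (g - Pool.Agent.U865.WM.rk (T.H ℓ X) m 1)).map
        (Int.castRingHom (Ω ℓ))

end

/-- **The expected local Euler factor.** Let `X` be a smooth projective variety over `ℚ` (or another
number field `K`), let a prime number (a finite place of `K`, with residue field with `q` elements)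
be given, and let `m ≤ 2 dim X`. Suppose that for `j ≠ m` the characteristic polynomial of the
Frobenius `F` on the part of `H^j(X)` on which inertia acts unipotently has rational coefficients
and does not depend on `ℓ`, for example because `H^j(X)` is generated by algebraic cycles (as for all
`j ≠ dim X` if `X` is a complete intersection in a projective space, a Grassmannian or another flag
variety). Then this also holds for `j = m`; let `C` be this polynomial,
`G = gcd (C(T), q ^ (deg C) C(T / q))` and let `L` be the reverse polynomial of `C / G`, a polynomial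
with integral coefficients. For the local factors `P_ℓ = det (1 - F T)` of `H^m(X)` for all prime
numbers `ℓ` (including `p`, for the `D_st` of the `p`-adic cohomology):

(1) `P_ℓ` is divisible by `L`, and the quotient has the degree `deg G - rank N_ℓ`; we have `P_ℓ = L`
if and only if `rank N_ℓ = deg G`;

(2) `P_ℓ = L` if the monodromy-weight conjecture holds for the `ℓ`-adic `H^m(X)`, or if
`rank N_ℓ + rank N_ℓ ^ 3 + ...` attains the bound by the slopes of the `p`-adic `H^m(X)`; if these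
slopes are equal to `m / 2`, then `P_ℓ = L` for all `ℓ`;

(3) if `P_ℓ₀ = L` for one `ℓ₀`, then `P_ℓ = L` exactly for those `ℓ` for which the dimension of the
space of invariants of inertia is the same as for `ℓ₀`;

(4) if `G` is a power of a linear polynomial `T - b`, then all the `P_ℓ` have integral coefficients,
`P_ℓ = L (1 - b T) ^ (deg G - rank N_ℓ)`; if `G = 1`, then `P_ℓ = L` for all `ℓ`. -/
theorem result {K : Type u} [Field K] {Ω : Nat.Primes → Type w} [∀ ℓ, Field (Ω ℓ)]
    [∀ ℓ, CharZero (Ω ℓ)] [∀ ℓ, IsAlgClosed (Ω ℓ)] {p : Nat.Primes} {T : FTheory.{u, v, w} K Ω p}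
    {q : ℕ} (hq : 1 < q) (hT : T.IsLocal q) (X : SmVar.{u} K) (m : ℕ) (hm : m ≤ 2 * X.dim)
    (hX : OthersIndep T X m) :
    ∃ (C : Polynomial ℚ) (L : Polynomial ℤ),
      (∀ ℓ, charP (T.H ℓ X) m = C.map (algebraMap ℚ (Ω ℓ))) ∧
      L.map (Int.castRingHom ℚ) = expected C q ∧
      Divides T q X m C L ∧ Sufficient T q X m C L ∧ Comparison T X m L ∧
      OneEigenvalue T q X m C L := by
  obtain ⟨C, hC⟩ := exists_C hT hm hX
  obtain ⟨L, hL⟩ := expected_integral (hT.coh p X) (hC p) (hT.integral p X m)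
  have hLℓ : ∀ ℓ, L.map (Int.castRingHom (Ω ℓ)) = (expected C q).map (algebraMap ℚ (Ω ℓ)) := by
    intro ℓ
    rw [← hL, Polynomial.map_map]
    congr 1
    exact RingHom.ext_int _ _
  have hmain := fun ℓ => main hq (hT.coh ℓ X) (hC ℓ)
  have hright : ∀ ℓ, Right T X m L ℓ ↔ rk (T.H ℓ X) m 1 = (common C q).natDegree := by
    intro ℓ
    unfold Right
    rw [hLℓ ℓ]
    exact (hmain ℓ).2.2
  have hdim : ∀ ℓ, rk (T.H ℓ X) m 1 + inv T X m ℓ = C.natDegree := by
    intro ℓ
    have h1 := rk_add_ker (hT.coh ℓ X) m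
    have h2 := natDegree_charP (hT.coh ℓ X) m
    rw [hC ℓ, Polynomial.natDegree_map] at h2
    rw [h2]
    exact h1
  refine ⟨C, L, hC, hL, fun ℓ => ⟨?_, hright ℓ⟩, ⟨fun ℓ h => ?_, fun ℓ M h => ?_, fun h => ?_⟩,
    fun ℓ₀ h ℓ => ?_, fun b g hg => ?_⟩
  · obtain ⟨D, hD, hdeg⟩ := quotient hq (hT.coh ℓ X) (hC ℓ)
    exact ⟨D, by rw [hD, hLℓ ℓ], hdeg⟩
  · exact (hright ℓ).2 (rank_of_mw hq (hT.coh ℓ X) (hC ℓ) h)
  · refine (hright ℓ).2 (rank_of_sum hq (hT.coh ℓ X) (hC ℓ) (M := M) ?_)
    have h1 := (weight_slope hq hT hC ℓ).trans h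
    exact_mod_cast h1
  · have h0 : slopeExcess (T.H p X) T.val m 0 = 0 :=
      slopeExcess_zero (hT.coh p X) fun α hα => by
        have := h α hα
        linarith
    have hz : ∀ ℓ, rk (T.H ℓ X) m 1 = (common C q).natDegree ∧ rk (T.H ℓ X) m 1 = 0 := by
      intro ℓ
      have h1 := weight_slope hq hT hC ℓ
      rw [h0] at h1
      have h2 : weightExcess (T.H ℓ X) q m 0 ≤ 0 := by exact_mod_cast h1
      have h3 : weightExcess (T.H ℓ X) q m 0 ≤ rankSumFrom (T.H ℓ X) m 0 0 := by omega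
      refine ⟨rank_of_sum hq (hT.coh ℓ X) (hC ℓ) h3, ?_⟩
      have h4 := rankSum_le hq (hT.coh ℓ X) m 0 1
      have h5 : rankSumFrom (T.H ℓ X) m 0 1 = rk (T.H ℓ X) m 1 := by
        unfold rankSumFrom
        rw [Finset.sum_range_one, mul_zero, add_zero, zero_add]
      rw [h5] at h4
      have h6 : rk (T.H ℓ X) m 1 ≤ weightExcess (T.H ℓ X) q m 0 := by exact_mod_cast h4
      omega
    refine ⟨?_, fun ℓ => (hright ℓ).2 (hz ℓ).1⟩
    have hG : (common C q).natDegree = 0 := by
      rw [← (hz p).1]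
      exact (hz p).2
    have hCm := C_monic (hT.coh p X) (hC p)
    have hG1 : common C q = 1 :=
      Polynomial.eq_one_of_monic_natDegree_zero (common_monic hCm.ne_zero q) hG
    rw [hL]
    unfold expected
    have := quot_mul hCm.ne_zero q
    rw [hG1, one_mul] at this
    rw [hG1, this]
  · have h0 := hdim ℓ₀
    have h1 := hdim ℓ
    have h2 := (hright ℓ₀).1 h
    have h3 := (hmain ℓ).1
    refine ⟨by omega, ?_⟩
    rw [hright ℓ]
    constructor <;> intro <;> omega
  · have hlin := fun ℓ => linear_case hq (hT.coh ℓ X) (hC ℓ) hg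
    rcases Nat.eq_zero_or_pos g with h0 | h0
    · refine ⟨0, fun h => absurd h (by omega), fun ℓ => ?_⟩
      rw [hlin ℓ, h0, Nat.zero_sub, pow_zero, pow_zero, mul_one, mul_one, hLℓ ℓ]
    · -- `b` is an eigenvalue
      have hCm := C_monic (hT.coh p X) (hC p)
      have h1 : mult (T.H p X) m ((b : ℚ) : Ω p) ≠ 0 := by
        have h2 := mult_common (Ω := Ω p) hCm.ne_zero (q := q) (by omega) (b : Ω p)
        rw [hg, Polynomial.map_pow, Polynomial.map_sub, Polynomial.map_X, Polynomial.map_C,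
          show (algebraMap ℚ (Ω p)) b = (b : Ω p) from rfl,
          Polynomial.rootMultiplicity_X_sub_C_pow, mult_C (hT.coh p X) (hC p)] at h2
        have := min_le_left (mult (T.H p X) m (b : Ω p))
          ((C.map (algebraMap ℚ (Ω p))).rootMultiplicity ((b : Ω p) / q))
        omega
      have h2 := hT.integral p X m _ h1
      have h3 : IsIntegral ℤ b :=
        (isIntegral_algebraMap_iff (algebraMap ℚ (Ω p)).injective).1 h2
      obtain ⟨z, hz⟩ := IsIntegrallyClosed.isIntegral_iff.1 h3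
      have hz' : (z : ℚ) = b := hz
      refine ⟨z, fun _ => hz', fun ℓ => ?_⟩
      rw [hlin ℓ, Polynomial.map_mul, hLℓ ℓ, Polynomial.map_pow, Polynomial.map_sub,
        Polynomial.map_one, Polynomial.map_mul, Polynomial.map_C, Polynomial.map_X]
      congr 5
      rw [← hz']
      simp

end Pool.Agent.Results.MP_898f40_nt.ExpectedFactor
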