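import Pool.Agent.U707.PT.All

/-!
# Local factors at bad primes from Frobenius traces at good primes

`V_i`, `i` in a finite set, are systems of `ℓ`-adic representations of the Galois group of `ℚ`, pure
of weight `w_i` at almost all primes (for instance the cohomology groups `H^j(X)` and `H^k(Y_j)` of
smooth projective varieties, or the representations of newforms), and `b_i` are integers with
`∑ b_i tr(Frob_q | V_i) = 0` for all primes `q` outside of a set of density zero (for instance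
because of a relation between the numbers of points of `X` and of the `Y_j` modulo `q`). Let `p` be
ANY prime, and `m` an integer. If the `V_i` of weight `m` with `b_i < 0` satisfy the
monodromy-weight conjecture at `p`, then so do those with `b_i > 0`; the product of the local factors
`P_p(V_i) ^ b_i` over the `i` with `w_i = m` is `1`; and if all but one of these local factors are
integral and independent of `ℓ` then so is the last one.

The proof uses parts by helper858, helper750, helper49, helper690, helper263, helper399, helper61,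
helper962 and helper864 (see `Pool.Agent.U707.PT.All`).
-/

set_option autoImplicit false

namespace Pool.Agent.Results.MP_898f40_nt.PointCounts

open Polynomial Pool.Agent.U707.PT

/-- **Local factors at all primes from relations between Frobenius traces.** -/
theorem result {ι : Type} [Fintype ι]
    (V : ∀ (ℓ : ℕ) [Fact ℓ.Prime], ι → GalRep ℓ) (w b : ι → ℤ)
    (hw : ∀ (ℓ : ℕ) [Fact ℓ.Prime] (i : ι), (V ℓ i).IsPure (w i))
    (hb : ∀ (ℓ : ℕ) [Fact ℓ.Prime], ∃ B : Set ℕ, Thin B ∧ ∀ q, q.Prime → q ∉ B → ∀ Q φ,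
      Above q Q → IsFrob q Q φ → ∑ i, (b i : ℚ_[ℓ]) * (V ℓ i).tr φ = 0)
    -- the prime `p`, the tame characters and the monodromy operators
    {p : ℕ} (hp : p.Prime) {Q : Ideal Zbar} {φ : AbsGal} (hQ : Above p Q) (hφ : IsFrob p Q φ)
    (t : ∀ (ℓ : ℕ) [Fact ℓ.Prime], AbsGal → ℚ_[ℓ])
    (ht : ∀ (ℓ : ℕ) [Fact ℓ.Prime], ℓ ≠ p → IsTame p Q φ (t ℓ))
    (N : ∀ (ℓ : ℕ) [Fact ℓ.Prime] (i : ι), Module.End ℚ_[ℓ] (V ℓ i).V)
    (hN : ∀ (ℓ : ℕ) [Fact ℓ.Prime], ℓ ≠ p → ∀ i, (V ℓ i).IsMonodromy Q (t ℓ) (N ℓ i))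
    -- the weight `m`
    (m : ℤ)
    (hg : ∀ (ℓ : ℕ) [Fact ℓ.Prime], ℓ ≠ p → ∀ i, w i = m → b i < 0 →
      MWPure p ((V ℓ i).ρ φ) (N ℓ i) m ∧ (V ℓ i).MeanWeight p φ m) :
    (∀ (ℓ : ℕ) [Fact ℓ.Prime], ℓ ≠ p → ∀ i, w i = m → 0 < b i →
      MWPure p ((V ℓ i).ρ φ) (N ℓ i) m) ∧
    (∀ (ℓ : ℕ) [Fact ℓ.Prime], ℓ ≠ p → ∀ f : ι → ℚ_[ℓ][X],
      (∀ i, w i = m → (V ℓ i).IsLocalFactor Q φ (f i)) →
      ∏ i with w i = m, f i ^ (b i).toNat = ∏ i with w i = m, f i ^ (-b i).toNat) ∧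
    ∀ i₀, w i₀ = m → b i₀ ≠ 0 →
      (∀ i, w i = m → i ≠ i₀ → b i ≠ 0 → ∃ P : ℤ[X], ∀ (ℓ : ℕ) [Fact ℓ.Prime], ℓ ≠ p →
        (V ℓ i).IsLocalFactor Q φ (P.map (Int.castRingHom ℚ_[ℓ]))) →
      ∃ P : ℤ[X], ∀ (ℓ : ℕ) [Fact ℓ.Prime], ℓ ≠ p →
        (V ℓ i₀).IsLocalFactor Q φ (P.map (Int.castRingHom ℚ_[ℓ])) :=
  fin898 sPROJ sDET sSUB sEXT sFAC sROOT sRING sINT V w b hw hb hp hQ hφ t ht N hN m hg

end Pool.Agent.Results.MP_898f40_nt.PointCounts
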