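import Pool.Agent.U849.SS.Fam

/-!
# The sharp threshold for supersingular reductions

Let `K` be a number field (for example `ℚ`), `V_ℓ`, for all primes `ℓ`, the cohomology groups
`H^(2u)(X ⊗ K̄, ℚ_ℓ)` of a smooth projective variety `X` over `K`, of dimension `n > 0`, and `P_v`
the characteristic polynomial of the geometric Frobenius elements at a place `v` of good reduction.
The place `v` is called supersingular if the Newton polygon of `P_v` is a straight line, that is if
the coefficient of `X ^ i` is divisible by `N(v) ^ (u * (n - i))` for all `i`.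

Suppose that the upper density of the set of the supersingular places is larger than `1 - 1 / n`.
Then all eigenvalues of the Frobenius elements at all good places are of the form `N(v) ^ u * ζ`
with `ζ ^ m = 1`, for a fixed `m`, and at every finite place `v`, of good or of bad reduction, the
local factor `det (1 - F_v T | V_ℓ ^ I_v)` has coefficients in `ℤ` and is the same polynomial for
all `ℓ` which are not below `v`.

Proof. By Chebotarev's theorem for closed sets the closed set of the `g` with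
`(ρ(g) ^ M - 1) ^ n = 0`, `ρ = V_ℓ(u)`, has Haar measure larger than `1 - 1 / n`. Let `W` be a
subspace of an irreducible constituent which is minimal among the nonzero subspaces stable under
open subgroups. The elements `h` for which `W` and `h W` are isomorphic under open subgroups form
a subgroup of index at most `n`, so that it contains good elements of positive measure. Functions
of finite type which vanish on a set of positive measure vanish on a coset of an open subgroup `U`,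
so that all elements of a coset `h U` are good. There are an embedding `f` of `W` commuting with `U`
and an automorphism `c` of `W` with `ρ(h) f = f c`. So the traces of `c ρ(u)`, `u` in `U`, on `W`
are sums of roots of unity of bounded order. By Burnside's theorem the image of `U` in `GL(W)` is
finite.
-/

set_option autoImplicit false

namespace Pool.Agent.Results.MP_898f40_nt.SharpSupersingular

open NumberField IsDedekindDomain Filter Matrix Polynomial

/-- the absolute Galois group of the field `K`, with the Krull topology -/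
abbrev AbsGal (K : Type) [Field K] : Type := Gal(AlgebraicClosure K/K)

section
variable {K : Type} [Field K]

/-- `g` belongs to the inertia group at the ideal `Q` of the ring of all algebraic integers. -/
def InInertia (Q : Ideal (𝓞 (AlgebraicClosure K))) (g : AbsGal K) : Prop :=
  ∀ x : 𝓞 (AlgebraicClosure K), g • x - x ∈ Q

/-- `g` is an arithmetic Frobenius element at `Q`, for a residue field with `q` elements of the
place below `Q`. -/
def FrobeniusAt (Q : Ideal (𝓞 (AlgebraicClosure K))) (q : ℕ) (g : AbsGal K) : Prop :=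
  ∀ x : 𝓞 (AlgebraicClosure K), g • x - x ^ q ∈ Q

/-- `Q` is a maximal ideal of the ring of all algebraic integers which lies above the finite
place `v` of `K`. -/
def LiesAbove [NumberField K] (v : HeightOneSpectrum (𝓞 K))
    (Q : Ideal (𝓞 (AlgebraicClosure K))) : Prop :=
  Q.IsMaximal ∧ Q.comap (algebraMap (𝓞 K) (𝓞 (AlgebraicClosure K))) = v.asIdeal

/-- the matrix of `g` -/
noncomputable def mat {F : Type} [Field F] {n : ℕ} (ρ : AbsGal K →* GL (Fin n) F) (g : AbsGal K) :
    Matrix (Fin n) (Fin n) F :=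
  (ρ g : GL (Fin n) F)

/-- the vectors which are fixed by the inertia group at `Q` -/
def invariants {F : Type} [Field F] {n : ℕ} (ρ : AbsGal K →* GL (Fin n) F)
    (Q : Ideal (𝓞 (AlgebraicClosure K))) : Submodule F (Fin n → F) where
  carrier := {x | ∀ g, InInertia Q g → mat ρ g *ᵥ x = x}
  add_mem' := by
    intro x y hx hy g hg
    rw [Matrix.mulVec_add, hx g hg, hy g hg]
  zero_mem' := by
    intro g _
    rw [Matrix.mulVec_zero]
  smul_mem' := by
    intro c x hx g hg
    rw [Matrix.mulVec_smul, hx g hg]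

/-- `f` is the polynomial `det (1 - g T)` of `g` on the invariants of the inertia group at `Q`: if
`A` is the matrix of `g` with respect to a basis `b` of the invariants then `f = det (1 - A T)`. -/
def IsLocalFactor {F : Type} [Field F] {n : ℕ} (ρ : AbsGal K →* GL (Fin n) F)
    (Q : Ideal (𝓞 (AlgebraicClosure K))) (g : AbsGal K) (f : F[X]) : Prop :=
  ∃ (m : ℕ) (b : Module.Basis (Fin m) F (invariants ρ Q)) (A : Matrix (Fin m) (Fin m) F),
    (∀ j, mat ρ g *ᵥ (b j : Fin n → F) = ∑ i, A i j • (b i : Fin n → F)) ∧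
    f = (1 - (X : F[X]) • A.map C).det

end

/-- the Newton polygon of the polynomial `P` of degree `n`, with respect to `q`, lies on or above
the line of slope `u` -/
def Supersingular (P : ℤ[X]) (n u q : ℕ) : Prop :=
  ∀ i ≤ n, (q : ℤ) ^ (u * (n - i)) ∣ P.coeff i

/-- **Local factors of cohomology groups with supersingular places of density `> 1 - 1 / n`.** -/
theorem result {K : Type} [Field K] [NumberField K] {n : ℕ} (hn : 0 < n)
    (V : ∀ (ℓ : ℕ) [Fact ℓ.Prime], AbsGal K →* GL (Fin n) ℚ_[ℓ])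
    (hV : ∀ (ℓ : ℕ) [Fact ℓ.Prime], Continuous (V ℓ)) (u : ℕ)
    -- the places of bad reduction, and the Frobenius polynomials at the other places
    (B : Set (HeightOneSpectrum (𝓞 K))) (hB : B.Finite) (P : HeightOneSpectrum (𝓞 K) → ℤ[X])
    (hP : ∀ (ℓ : ℕ) [Fact ℓ.Prime], ∀ v, v ∉ B → (ℓ : 𝓞 K) ∉ v.asIdeal → ∀ Q, LiesAbove v Q →
      ∀ g, FrobeniusAt Q (Ideal.absNorm v.asIdeal) g →
        (mat (V ℓ) g⁻¹).charpoly = (P v).map (Int.castRingHom ℚ_[ℓ]))
    (hRH : ∀ v, v ∉ B → ∀ z : ℂ, ((P v).map (Int.castRingHom ℂ)).IsRoot z →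
      ‖z‖ = (Ideal.absNorm v.asIdeal : ℝ) ^ u)
    -- the density of the other places is smaller than `1 / n`
    (θ : ℝ) (hθ : θ < 1 / (n : ℝ))
    (hss : ∃ᶠ x : ℕ in atTop, ({v : HeightOneSpectrum (𝓞 K) | Ideal.absNorm v.asIdeal ≤ x ∧
      ¬ Supersingular (P v) n u (Ideal.absNorm v.asIdeal)}.ncard : ℝ) ≤
        θ * Nat.primeCounting x) :
    (∃ m : ℕ, 0 < m ∧ ∀ v, v ∉ B → ∀ z : ℂ, ((P v).map (Int.castRingHom ℂ)).IsRoot z →
      ∃ ζ : ℂ, ζ ^ m = 1 ∧ z = (Ideal.absNorm v.asIdeal : ℂ) ^ u * ζ) ∧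
    ∀ (v : HeightOneSpectrum (𝓞 K)) (Q : Ideal (𝓞 (AlgebraicClosure K))) (g : AbsGal K),
      LiesAbove v Q → FrobeniusAt Q (Ideal.absNorm v.asIdeal) g⁻¹ →
      ∃ R : ℤ[X], ∀ (ℓ : ℕ) [Fact ℓ.Prime], (ℓ : 𝓞 K) ∉ v.asIdeal → ∀ f : ℚ_[ℓ][X],
        IsLocalFactor (V ℓ) Q g f ↔ f = R.map (Int.castRingHom ℚ_[ℓ]) := by
  classical
  have hN0 : ∀ v : HeightOneSpectrum (𝓞 K), 0 < Ideal.absNorm v.asIdeal := fun v =>
    Nat.pos_of_ne_zero (fun h0 => v.ne_bot (Ideal.absNorm_eq_zero_iff.1 h0))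
  have hn' : (0 : ℝ) < n := by exact_mod_cast hn
  have hP' : ∀ (ℓ : ℕ) [Fact ℓ.Prime], ∀ v, v ∉ B → (ℓ : 𝓞 K) ∉ v.asIdeal → ∀ g,
      Pool.Agent.W401.Cheb.IsFrob v g → (Pool.Agent.R401.Img.mt (V ℓ) g⁻¹).charpoly =
        (P v).map (Int.castRingHom ℚ_[ℓ]) := by
    rintro ℓ _ v hv hℓ g ⟨Q, hQ, hQv, hg⟩
    exact hP ℓ v hv hℓ Q ⟨hQ, hQv⟩ g hg
  -- a prime `ℓ` not below `v`
  have hex : ∀ v : HeightOneSpectrum (𝓞 K), ∃ ℓ : ℕ, ∃ _ : Fact ℓ.Prime, (ℓ : 𝓞 K) ∉ v.asIdeal := by
    intro v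
    by_cases h2 : ((2 : ℕ) : 𝓞 K) ∈ v.asIdeal
    · refine ⟨3, ⟨Nat.prime_three⟩, fun h3 => ?_⟩
      apply v.isPrime.ne_top
      rw [Ideal.eq_top_iff_one]
      have h4 := v.asIdeal.sub_mem h3 h2
      have h5 : ((3 : ℕ) : 𝓞 K) - ((2 : ℕ) : 𝓞 K) = 1 := by
        push_cast
        norm_num
      rwa [h5] at h4
    · exact ⟨2, ⟨Nat.prime_two⟩, h2⟩
  have hmon : ∀ v, v ∉ B → (P v).Monic := by
    intro v hv
    obtain ⟨ℓ, hℓp, hℓ⟩ := hex v
    obtain ⟨g, hg⟩ := Pool.Agent.W401.Frob.exists_frob v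
    have h1 := hP' ℓ v hv hℓ g hg
    apply monic_of_injective (RingHom.injective_int (Int.castRingHom ℚ_[ℓ]))
    rw [← h1]
    exact Matrix.charpoly_monic _
  obtain ⟨M, hM0, hM⟩ := Pool.Agent.U849.SS.exists_exp n
  -- supersingular places
  set S : Set (HeightOneSpectrum (𝓞 K)) :=
    {v | v ∉ B ∧ Supersingular (P v) n u (Ideal.absNorm v.asIdeal)} with hS
  have hSM : ∀ (ℓ : ℕ) [Fact ℓ.Prime], ∀ v ∈ S, (ℓ : 𝓞 K) ∉ v.asIdeal → ∀ g,
      Pool.Agent.W401.Cheb.IsFrob v g → (Pool.Agent.R401.Img.mt (V ℓ) g⁻¹ ^ M -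
        (((Ideal.absNorm v.asIdeal) ^ u : ℕ) : Matrix (Fin n) (Fin n) ℚ_[ℓ]) ^ M) ^ n = 0 := by
    intro ℓ _ v hv hℓ g hg
    have hA := hP' ℓ v hv.1 hℓ g hg
    have hdeg : (P v).natDegree = n := by
      have h1 := congrArg natDegree hA
      rw [Matrix.charpoly_natDegree_eq_dim, Fintype.card_fin, (hmon v hv.1).natDegree_map] at h1
      exact h1.symm
    refine Pool.Agent.U849.SS.unip_of _ (hmon v hv.1) hA ((Ideal.absNorm v.asIdeal) ^ u) ?_
    intro z hz
    refine Pool.Agent.U849.SS.root_pow hM (hmon v hv.1) hdeg (pow_pos (hN0 v) u) ?_ ?_ hz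
    · intro i hi
      have h1 := hv.2 i hi
      rw [pow_mul] at h1
      push_cast
      exact h1
    · intro z hz
      rw [hRH v hv.1 z hz]
      push_cast
      rfl
  have hdens : ∃ θ' : ℝ, θ' * n < 1 ∧ ∃ᶠ N : ℕ in atTop,
      Pool.Agent.W401.Cheb.dens (fun v : HeightOneSpectrum (𝓞 K) => v ∉ S) N ≤ θ' := by
    have hθn : θ * n < 1 := (lt_div_iff₀ hn').1 hθ
    set ε : ℝ := (1 - θ * n) / (2 * n) with hε
    have hε0 : 0 < ε := div_pos (by linarith) (by positivity)
    refine ⟨θ + ε, ?_, ?_⟩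
    · have h1 : ε * n = (1 - θ * n) / 2 := by
        rw [hε]
        field_simp
      rw [add_mul, h1]
      linarith
    · have hBd : ∀ᶠ N : ℕ in atTop,
          Pool.Agent.W401.Cheb.dens (fun v : HeightOneSpectrum (𝓞 K) => v ∈ B) N ≤ ε :=
        (Pool.Agent.R401.Sup2.dens_fin (fun v : HeightOneSpectrum (𝓞 K) => v ∈ B) hB).eventually
          (ge_mem_nhds hε0)
      refine (hss.and_eventually (hBd.and
        (Nat.tendsto_primeCounting.eventually_gt_atTop 0))).mono ?_
      rintro N ⟨h1, h2, h3⟩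
      have h4 : (0 : ℝ) < (Nat.primeCounting N : ℝ) := by exact_mod_cast h3
      have h5 : Pool.Agent.W401.Cheb.dens (fun v : HeightOneSpectrum (𝓞 K) => v ∉ S) N ≤
          Pool.Agent.W401.Cheb.dens (fun v : HeightOneSpectrum (𝓞 K) =>
            (¬ Supersingular (P v) n u (Ideal.absNorm v.asIdeal)) ∨ v ∈ B) N := by
        refine Pool.Agent.R401.Eng.dens_le ?_ N
        intro v hv
        by_cases hvB : v ∈ B
        · exact Or.inr hvB
        · exact Or.inl fun hs => hv ⟨hvB, hs⟩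
      have h6 := h5.trans (Pool.Agent.R401.Sup2.card_or _ _ N)
      have h7 : Pool.Agent.W401.Cheb.dens (fun v : HeightOneSpectrum (𝓞 K) =>
          ¬ Supersingular (P v) n u (Ideal.absNorm v.asIdeal)) N ≤ θ := by
        unfold Pool.Agent.W401.Cheb.dens
        rw [div_le_iff₀ h4]
        exact h1
      linarith
  obtain ⟨θ', hθ', hdens⟩ := hdens
  have hU := fun (ℓ : ℕ) [Fact ℓ.Prime] => Pool.Agent.U849.SS.one_trace hn (V ℓ) (hV ℓ) u hM0 S
    (hSM ℓ) θ' hθ' hdens
  have hne : Nonempty (Fin n) := ⟨⟨0, hn⟩⟩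
  obtain ⟨φ, U, hUn, hUo, hUφ, hφ⟩ := Pool.Agent.U849.SS.fam V B hB
    (fun v => -((P v).coeff (n - 1) : ℚ)) u (by
      intro ℓ _ v hv hℓ g hg
      have h1 := hP' ℓ v hv hℓ g hg
      rw [Matrix.trace_eq_neg_charpoly_coeff, h1, coeff_map, Fintype.card_fin]
      push_cast
      rfl) hU
  constructor
  · have hfin : Finite (AbsGal K ⧸ U) := Subgroup.quotient_finite_of_isOpen _ hUo
    have hfi : U.FiniteIndex := Subgroup.finiteIndex_of_finite_quotient
    refine ⟨U.index, Nat.pos_of_ne_zero hfi.index_ne_zero, fun v hv z hz => ?_⟩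
    obtain ⟨ℓ, hℓp, hℓ⟩ := hex v
    obtain ⟨g, hg⟩ := Pool.Agent.W401.Frob.exists_frob v
    have h1 := Pool.Agent.U849.SS.all_places (V ℓ) u φ U hUn hUφ (hφ ℓ) hℓ hg
    have h2 := Pool.Agent.U849.SS.charpoly_dvd _ _ _ h1 (hmon v hv) (hP' ℓ v hv hℓ g hg)
    obtain ⟨k, hk⟩ := h2
    have h3 : ((X ^ U.index - (((Ideal.absNorm v.asIdeal) ^ u : ℕ) : ℤ[X]) ^ U.index) ^ n).map
        (Int.castRingHom ℂ) = (P v).map (Int.castRingHom ℂ) * k.map (Int.castRingHom ℂ) := by
      rw [hk, Polynomial.map_mul]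
    have h4 := congrArg (eval z) h3
    rw [eval_mul, hz.eq_zero, zero_mul] at h4
    simp only [Polynomial.map_pow, Polynomial.map_sub, map_X, Polynomial.map_natCast, eval_pow,
      eval_sub, eval_X, eval_natCast] at h4
    have h5 : z ^ U.index = ((Ideal.absNorm v.asIdeal : ℂ) ^ u) ^ U.index := by
      have h6 := eq_zero_of_pow_eq_zero h4
      rw [sub_eq_zero] at h6
      rw [h6]
      push_cast
      rfl
    have hs0 : ((Ideal.absNorm v.asIdeal : ℂ) ^ u) ≠ 0 := by
      apply pow_ne_zero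
      exact_mod_cast (hN0 v).ne'
    refine ⟨z / (Ideal.absNorm v.asIdeal : ℂ) ^ u, ?_, ?_⟩
    · rw [div_pow, h5, div_self (pow_ne_zero _ hs0)]
    · rw [mul_div_cancel₀ _ hs0]
  · intro v Q g hQ hg
    have hq : 2 ≤ Ideal.absNorm v.asIdeal := by
      have h0 : Ideal.absNorm v.asIdeal ≠ 0 := fun h0 => v.ne_bot (Ideal.absNorm_eq_zero_iff.1 h0)
      have h1 : Ideal.absNorm v.asIdeal ≠ 1 := fun h1 =>
        v.isPrime.ne_top (Ideal.absNorm_eq_one_iff.1 h1)
      omega
    have hI : ∀ (ℓ : ℕ) [Fact ℓ.Prime] (x : Fin n → ℚ_[ℓ]), x ∈ invariants (V ℓ) Q ↔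
        ∀ τ, Pool.Agent.W569.FM.InInertia Q τ → Pool.Agent.R401.Img.mt (V ℓ) τ *ᵥ x = x :=
      fun ℓ _ x => Iff.rfl
    obtain ⟨R, hR⟩ := Pool.Agent.R401.Tr6.loc V hV u φ U hUn hUo hUφ hφ hQ.1 hq hg
      (fun ℓ _ => invariants (V ℓ) Q) hI
    rw [inv_inv] at hR
    refine ⟨R, ?_⟩
    intro ℓ _ hℓ f
    have hℓQ : (ℓ : 𝓞 (AlgebraicClosure K)) ∉ Q := by
      intro h
      apply hℓ
      rw [← hQ.2, Ideal.mem_comap, map_natCast]
      exact h
    constructor
    · rintro ⟨m, b, A, hA, rfl⟩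
      exact hR ℓ hℓQ m b A hA
    · rintro rfl
      obtain ⟨m, b, A, hA⟩ := Pool.Agent.R401.Tr6.exists_basis (V ℓ) hq hg (hI ℓ)
      rw [inv_inv] at hA
      exact ⟨m, b, A, hA, (hR ℓ hℓQ m b A hA).symm⟩

end Pool.Agent.Results.MP_898f40_nt.SharpSupersingular
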