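import Pool.Agent.U672.SF.Main

/-!
# Local Euler factors of schemes built from systems of equations with few terms

`D` is the triangulated category of geometric motives over `ℚ` with rational coefficients, in the form of its
standard properties (`MotiveFacts`); it contains the category of Chow motives. `S` is the realization given by
singular cohomology. `WM p A` is the weight-monodromy conjecture at the prime `p` for the `ℓ`-adic
realizations of the object `A`, for all `ℓ ≠ p`; it is stable under direct factors of sums, tensor products and
Tate twists (`WMFacts`, Deligne). `P X i p ℓ` is the characteristic polynomial of the geometric Frobenius on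
the inertia invariants of `H^i(X, ℚ_ℓ)` at `p`. By a theorem of T. Saito (the traces of the elements of
the Weil group composed with algebraic correspondences are rational and independent of `ℓ`) these polynomials
are in `ℤ[T]` and independent of `ℓ`, if the Künneth projectors of `X` are algebraic and the
weight-monodromy conjecture is true for `X`; both are known if `dim X ≤ 2` (Rapoport and Zink, de Jong).

The *excess* of a system of polynomials is the sum of (number of terms - 2) over its members with at
least three terms.

**Theorem.** The local Euler factors of `X` are integral and independent of `ℓ` at all primes `p` in all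
degrees, for all smooth proper `X` over `ℚ`, of any dimension, which can be obtained from the following
schemes by cutting and pasting, products of affine schemes and quotients by finite free coverings
(`Constructed 2`):
* the closed subschemes of affine spaces defined by a system `G` of excess at most three and polynomials `H`
  with any numbers of terms whose exponents are independent modulo the differences of the exponents
  of `G`; for instance all hypersurfaces with at most five terms, and all hypersurfaces with affinely
  independent exponents, singular or not;
* the schemes `∑ f_j (x_j) = g (y)`, where the `f_j` are polynomials in separate variables, each of them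
  quasi-homogeneous in at most three variables or a trilinear form with a block of at most four
  variables, and `g` is a function on an affine scheme of dimension at most two;
* all schemes of dimension at most two;
* all smooth proper schemes with algebraic Künneth projectors for which the weight-monodromy conjecture
  is true.
More generally, this holds with `N` instead of two (excess at most `N + 1`, and so on) if the Künneth projectors
are algebraic and the weight-monodromy conjecture is true in dimension at most `N`.

In fact the motive of `X` is a direct factor of a sum of Tate twists of products of motives of the given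
smooth proper schemes; hence the Künneth projectors of `X` are algebraic and the weight-monodromy conjecture
is true for `X`.
-/

set_option autoImplicit false

open CategoryTheory MonoidalCategory AlgebraicGeometry Pool.Agent.TH137.DG Pool.Agent.Y116.UV
  Pool.Agent.Z125.UN Pool.Agent.U672.SF

namespace Pool.Agent.Results.MP_898f40_nt.SystemsOfFewTerms

universe v u w

/-- The weight-monodromy property at the primes `p` is stable under direct factors of sums, tensor products and
Tate twists. -/
structure WMFacts {C : Type u} [Category.{v} C] [MonoidalCategory C] [Preadditive C] (L : C)
    (WM : ℕ → C → Prop) : Prop where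
  factor : ∀ (p : ℕ) (A B T : C) (i₁ : A ⟶ T) (i₂ : B ⟶ T) (p₁ : T ⟶ A) (p₂ : T ⟶ B),
    p₁ ≫ i₁ + p₂ ≫ i₂ = 𝟙 T → WM p A → WM p B → WM p T
  tensor : ∀ (p : ℕ) (A B : C), WM p A → WM p B → WM p (A ⊗ B)
  twist : ∀ (p : ℕ) (A : C), WM p (L ⊗ A) ↔ WM p A

/-- The local Euler factors of `X` are integral and independent of `ℓ`: for all degrees `i` and primes `p` there
is a polynomial `Q` with integral coefficients which is equal to `P X i p ℓ` for all primes `ℓ ≠ p`. -/
def Integral (P : Sch ℚ → ℕ → ℕ → (ℓ : ℕ) → [Fact ℓ.Prime] → Polynomial ℚ_[ℓ]) (X : Sch ℚ) :
    Prop :=
  ∀ i p : ℕ, p.Prime → ∃ Q : Polynomial ℤ, ∀ (ℓ : ℕ) [Fact ℓ.Prime], ℓ ≠ p →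
    P X i p ℓ = Q.map (Int.castRingHom ℚ_[ℓ])

variable {C : Type u} [Category.{v} C] [MonoidalCategory C]
  [SymmetricCategory C] [Preadditive C] [Linear ℚ C] [Limits.HasZeroObject C] [HasShift C ℤ]
  [∀ n : ℤ, (shiftFunctor C n).Additive] [Pretriangulated C] {D : Motives ℚ C}
  {F : Type} [Field F] [CharZero F]

/-- `X` is smooth and proper with algebraic Künneth projectors, and the weight-monodromy conjecture is true for
`X` at all primes. -/
def Good (S : Realization.{v, u, w} D F) (WM : ℕ → C → Prop) (X : Sch ℚ) : Prop :=
  SmoothProper X ∧ AllProjectors S (D.M X) ∧ ∀ p : ℕ, p.Prime → WM p (D.M X)

/-- **Theorem.** Let `N ≥ 1` and let the Künneth projectors be algebraic and the weight-monodromy conjecture be true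
for the smooth proper schemes over `ℚ` of dimension at most `N` (known for `N = 2`). Let `X` be a smooth
proper scheme which is constructed from systems of equations of excess at most `N + 1` with further equations
with independent exponents, schemes `∑ f_j (x_j) = g (y)`, schemes of dimension at most `N` and smooth
proper schemes with these two properties. Then `X` has these two properties, and its local Euler factors are
integral and independent of `ℓ`. The last hypothesis is the theorem of Saito. -/
theorem result (hD : MotiveFacts D) (S : Realization.{v, u, w} D F) (WM : ℕ → C → Prop)
    (hWM : WMFacts D.L WM)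
    (P : Sch ℚ → ℕ → ℕ → (ℓ : ℕ) → [Fact ℓ.Prime] → Polynomial ℚ_[ℓ])
    (saito : ∀ X, Good S WM X → Integral P X) (N : ℕ) (hN : 1 ≤ N)
    (known : ∀ X, SmoothProper X → topologicalKrullDim X.left ≤ N → Good S WM X) (X : Sch ℚ)
    (hp : SmoothProper X) (hX : Constructed N (Good S WM) X) : Good S WM X ∧ Integral P X := by
  have h1 : Pure D (Good S WM) (D.M X) :=
    constructed_pure hD hN (fun X hX => hX.1) known X hX hp
  have h2 := pure_all hD (fun X hX => hX.2.1) h1
  have h3 : ∀ p : ℕ, p.Prime → WM p (D.M X) := by
    intro p hpp
    clear h2
    generalize D.M X = B at h1 ⊢
    induction h1 with
    | gen Y hY => exact hY.2.2 p hpp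
    | factor A B T i₁ i₂ p₁ p₂ h _ _ h1 h2 => exact hWM.factor p A B T i₁ i₂ p₁ p₂ h h1 h2
    | tensor A B _ _ h1 h2 => exact hWM.tensor p A B h1 h2
    | twist A _ h => exact (hWM.twist p A).mpr h
    | untwist A _ h => exact (hWM.twist p A).mp h
  have h4 : Good S WM X := ⟨hp, h2, h3⟩
  exact ⟨h4, saito X h4⟩

end Pool.Agent.Results.MP_898f40_nt.SystemsOfFewTerms
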